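import Pool.Agent.TH146.MN.Lev

set_option autoImplicit false
set_option linter.unusedSectionVars false

/-! Almost Nagata for arbitrary weights: rounding the weights to a geometric progression and adding
few points of every weight. -/

namespace Pool.Agent.U390.AN

open Pool.Agent.H350R3.NB Pool.Agent.TH146.MN

/-- constants -/
theorem consts {ε : ℝ} (hε : 0 < ε) (hε1 : ε ≤ 1) : ∃ (s : ℕ) (a : ℝ), 0 < s ∧
    (s : ℝ) * ε ≤ 3 ∧ a ^ s = 2 ∧ 1 < a ∧ a ≤ 1 + ε / 2 ∧ a ≤ 2 * s * (a - 1) := by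
  obtain ⟨s, hs⟩ : ∃ s : ℕ, s = ⌈2 / ε⌉₊ := ⟨_, rfl⟩
  have h1 : 2 / ε ≤ s := by rw [hs]; exact Nat.le_ceil _
  have h2 : (s : ℝ) < 2 / ε + 1 := by rw [hs]; exact Nat.ceil_lt_add_one (by positivity)
  have hs0 : 0 < s := by
    rw [hs]; exact Nat.ceil_pos.2 (by positivity)
  have h1' : 2 ≤ s * ε := by rwa [div_le_iff₀ hε] at h1
  have h2' : (s : ℝ) * ε ≤ 3 := by
    have : (s : ℝ) * ε < (2 / ε + 1) * ε := mul_lt_mul_of_pos_right h2 hε
    have h3 : (2 / ε + 1) * ε = 2 + ε := by field_simp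
    linarith
  obtain ⟨a, ha⟩ : ∃ a : ℝ, a = (2 : ℝ) ^ ((s : ℝ)⁻¹) := ⟨_, rfl⟩
  have has : a ^ s = 2 := by
    rw [ha]; exact Real.rpow_inv_natCast_pow (by norm_num) hs0.ne'
  have ha0 : 0 < a := by rw [ha]; positivity
  have ha1 : 1 < a := by
    by_contra hcon
    push Not at hcon
    have := pow_le_one₀ (n := s) ha0.le hcon
    linarith
  refine ⟨s, a, hs0, h2', has, ha1, ?_, ?_⟩
  · by_contra hcon
    push Not at hcon
    have h3 := one_add_mul_le_pow (a := ε / 2) (by linarith) s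
    have h4 : (1 + ε / 2) ^ s < a ^ s := pow_lt_pow_left₀ hcon (by positivity) hs0.ne'
    rw [has] at h4
    nlinarith
  · have h3 := one_add_mul_le_pow (a := -((a - 1) / a)) (by
      have : (a - 1) / a ≤ 1 := by rw [div_le_one ha0]; linarith
      linarith) s
    have h4 : 1 + -((a - 1) / a) = 1 / a := by field_simp; ring
    rw [h4, one_div, inv_pow, has] at h3
    have h5 : (1 : ℝ) / 2 ≤ s * ((a - 1) / a) := by linarith
    have h6 : (s : ℝ) * ((a - 1) / a) = s * (a - 1) / a := by ring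
    rw [h6, le_div_iff₀ ha0] at h5
    linarith

theorem geomsum_le {a : ℝ} (ha : 1 < a) {s : ℕ} (hs : a ≤ 2 * s * (a - 1)) (R : ℕ) :
    ∑ t : Fin R, ((1 : ℝ) / a ^ (t : ℕ)) ^ 2 ≤ (2 : ℝ) * s := by
  have ha0 : 0 < a := by linarith
  have h0 : ∑ t : Fin R, ((1 : ℝ) / a ^ (t : ℕ)) ^ 2 =
      ∑ t ∈ Finset.range R, (((1 : ℝ) / a) ^ 2) ^ t := by
    rw [Fin.sum_univ_eq_sum_range (fun t => ((1 : ℝ) / a ^ t) ^ 2) R]
    refine Finset.sum_congr rfl fun t _ => ?_
    rw [← one_div_pow, ← pow_mul, ← pow_mul, mul_comm]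
  rw [h0]
  have hq1 : (1 / a) ^ 2 < 1 := by
    have : 1 / a < 1 := by rw [div_lt_one ha0]; exact ha
    have h' : 0 ≤ 1 / a := by positivity
    nlinarith
  have hq0 : 0 ≤ (1 / a) ^ 2 := by positivity
  have h1 : (∑ t ∈ Finset.range R, ((1 / a) ^ 2) ^ t) * (1 - (1 / a) ^ 2) ≤ 1 := by
    have h2 := geom_sum_mul_neg ((1 / a) ^ 2) R
    rw [h2]
    have : 0 ≤ ((1 / a) ^ 2) ^ R := by positivity
    linarith
  have h3 : 1 ≤ 2 * s * (1 - (1 / a) ^ 2) := by
    have h4 : 1 - (1 / a) ^ 2 = (a - 1) * (a + 1) / a ^ 2 := by field_simp; ring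
    rw [h4, show 2 * (s : ℝ) * ((a - 1) * (a + 1) / a ^ 2) =
      (2 * s * (a - 1)) * (a + 1) / a ^ 2 by ring, le_div_iff₀ (by positivity)]
    nlinarith
  have h5 : 0 < 1 - (1 / a) ^ 2 := by linarith
  nlinarith

/-- **Almost Nagata for arbitrary weights.** -/
theorem nf_almost {ε : ℝ} (hε : 0 < ε) (hε1 : ε ≤ 1) {ι : Type} [Fintype ι] [Nonempty ι]
    (x : ι → ℝ) (hx : ∀ i, 0 < x i) (hδ : ∀ i, 288 * x i ^ 2 ≤ ε ^ 3 * ∑ j, x j ^ 2) :
    Nf ℂ x ((1 + ε) * √(∑ j, x j ^ 2)) := by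
  classical
  obtain ⟨s, a, hs0, hsε, has, ha1, haε, has2⟩ := consts hε hε1
  have ha0 : 0 < a := by linarith
  obtain ⟨S, hS⟩ : ∃ S : ℝ, S = ∑ j, x j ^ 2 := ⟨_, rfl⟩
  rw [← hS] at hδ ⊢
  have hS0 : 0 ≤ S := by rw [hS]; exact Finset.sum_nonneg fun i _ => sq_nonneg _
  obtain ⟨i0, -, hi0⟩ := Finset.exists_max_image (Finset.univ : Finset ι) x Finset.univ_nonempty
  obtain ⟨M, hM⟩ : ∃ M : ℝ, M = x i0 := ⟨_, rfl⟩
  have hM0 : 0 < M := by rw [hM]; exact hx i0
  have hxM : ∀ i, x i ≤ M := fun i => by rw [hM]; exact hi0 i (Finset.mem_univ _)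
  have hMS : 288 * M ^ 2 ≤ ε ^ 3 * S := by rw [hM]; exact hδ i0
  have hround : ∀ i, ∃ t : ℕ, x i ≤ M / a ^ t ∧ M / a ^ t ≤ a * x i := by
    intro i
    obtain ⟨t, ht1, ht2⟩ := exists_nat_pow_near (x := M / x i) (y := a)
      ((one_le_div (hx i)).2 (hxM i)) ha1
    refine ⟨t, ?_, ?_⟩
    · rw [le_div_iff₀ (by positivity)]
      rw [le_div_iff₀ (hx i)] at ht1
      linarith
    · rw [div_le_iff₀ (by positivity)]
      rw [div_lt_iff₀ (hx i), pow_succ] at ht2
      nlinarith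
  choose t ht1 ht2 using hround
  obtain ⟨R, hR⟩ : ∃ R : ℕ, R = (∑ i, t i) + 1 := ⟨_, rfl⟩
  have htR : ∀ i, t i < R := fun i => by
    have := Finset.single_le_sum (f := t) (fun j _ => Nat.zero_le _) (Finset.mem_univ i)
    omega
  have hR0 : 0 < R := by omega
  obtain ⟨D, hD⟩ : ∃ D : ℕ, D = 4 * s + 36 := ⟨_, rfl⟩
  let gr' : ι ⊕ (Fin D × Fin R) → Fin R := Sum.elim (fun i => ⟨t i, htR i⟩) fun q => q.2
  let e := Fintype.equivFin (ι ⊕ (Fin D × Fin R))
  let gr : Fin (Fintype.card (ι ⊕ (Fin D × Fin R))) → Fin R := fun j => gr' (e.symm j)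
  let y : Fin R → ℝ := fun l => M / a ^ (l : ℕ)
  let top : Fin R → ℝ := fun l => M / 2 ^ ((l : ℕ) / s)
  have hpw : ∀ k : ℕ, (2 : ℝ) ^ k = a ^ (s * k) := fun k => by rw [pow_mul, has]
  have hy0 : ∀ l, 0 < y l := fun l => by simp only [y]; positivity
  have htop0 : ∀ l, 0 < top l := fun l => by simp only [top]; positivity
  have hle : ∀ l, y l ≤ top l := by
    intro l
    simp only [y, top]
    refine div_le_div_of_nonneg_left hM0.le (by positivity) ?_
    rw [hpw]
    exact pow_le_pow_right₀ ha1.le (Nat.mul_div_le _ _)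
  have hhead : ∀ l : Fin R, ∃ l'' : Fin R, y l'' = top l ∧ top l'' = top l := by
    intro l
    refine ⟨⟨s * ((l : ℕ) / s), (Nat.mul_div_le _ _).trans_lt l.2⟩, ?_, ?_⟩
    · simp only [y, top]
      rw [hpw]
    · simp only [top]
      rw [Nat.mul_div_cancel_left _ hs0]
  have htoplt : ∀ l l', top l' < top l → (l : ℕ) / s < (l' : ℕ) / s := by
    intro l l' h
    by_contra hcon
    push Not at hcon
    have : top l ≤ top l' := by
      simp only [top]
      exact div_le_div_of_nonneg_left hM0.le (by positivity)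
        (pow_le_pow_right₀ (by norm_num) hcon)
    linarith
  have htopeq : ∀ l l', top l' = top l → (l' : ℕ) / s = (l : ℕ) / s := by
    intro l l' h
    rcases lt_trichotomy ((l' : ℕ) / s) ((l : ℕ) / s) with h1 | h1 | h1
    · exfalso
      have : top l < top l' := by
        simp only [top]
        exact div_lt_div_of_pos_left hM0 (by positivity) (pow_lt_pow_right₀ (by norm_num) h1)
      linarith
    · exact h1
    · exfalso
      have : top l' < top l := by
        simp only [top]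
        exact div_lt_div_of_pos_left hM0 (by positivity) (pow_lt_pow_right₀ (by norm_num) h1)
      linarith
  have hgr : ∀ (k : Fin D) (l : Fin R), gr (e (Sum.inr (k, l))) = l := fun k l => by
    simp only [gr, gr', Equiv.symm_apply_apply, Sum.elim_inr]
  have hinj : ∀ l : Fin R, Function.Injective fun k : Fin D => e (Sum.inr (k, l)) := by
    intro l k k' h
    have h1 := e.injective h
    simpa using h1
  have hDsum : ∀ (l : Fin R) (P : Finset (Fin (Fintype.card (ι ⊕ (Fin D × Fin R))))),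
      (∀ k : Fin D, e (Sum.inr (k, l)) ∈ P) → (D : ℝ) * y l ^ 2 ≤ ∑ j ∈ P, y (gr j) ^ 2 := by
    intro l P hP
    have h1 : ∑ j ∈ (Finset.univ : Finset (Fin D)).image fun k => e (Sum.inr (k, l)), y (gr j) ^ 2 =
        (D : ℝ) * y l ^ 2 := by
      rw [Finset.sum_image fun k _ k' _ h => hinj l h]
      rw [Finset.sum_congr rfl fun k _ => by rw [hgr k l], Finset.sum_const, nsmul_eq_mul,
        Finset.card_univ, Fintype.card_fin]
    rw [← h1]
    refine Finset.sum_le_sum_of_subset_of_nonneg ?_ fun j _ _ => sq_nonneg _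
    intro j hj
    obtain ⟨k, -, rfl⟩ := Finset.mem_image.1 hj
    exact hP k
  have hcardD : ∀ l : Fin R, (D : ℝ) ≤ (Fintype.card {j // gr j = l} : ℝ) := by
    intro l
    have h1 : Fintype.card (Fin D) ≤ Fintype.card {j // gr j = l} :=
      Fintype.card_le_of_injective (fun k => ⟨e (Sum.inr (k, l)), hgr k l⟩) fun k k' h =>
        hinj l (Subtype.ext_iff.1 h)
    rw [Fintype.card_fin] at h1
    exact_mod_cast h1
  have hDR : (D : ℝ) = 4 * s + 36 := by rw [hD]; push_cast; ring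
  have hs0R : (0 : ℝ) < s := by exact_mod_cast hs0
  have hL : Lev gr y top := by
    refine ⟨?_, hy0, hle, fun l l' _ => hhead l, ?_, ?_, ?_⟩
    · intro l
      exact ⟨e (Sum.inr (⟨0, by omega⟩, l)), hgr _ l⟩
    · intro l l' h
      have h1 := htoplt l l' h
      simp only [top]
      have h2 : (2 : ℝ) ^ ((l : ℕ) / s) * 2 ≤ 2 ^ ((l' : ℕ) / s) := by
        rw [← pow_succ]
        exact pow_le_pow_right₀ (by norm_num) h1
      rw [← mul_div_assoc, div_le_div_iff₀ (by positivity) (by positivity)]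
      nlinarith
    · intro l
      right
      have h1 : a ^ (l : ℕ) < 2 ^ ((l : ℕ) / s) * 2 := by
        rw [← pow_succ, hpw]
        exact pow_lt_pow_right₀ ha1 (Nat.lt_mul_div_succ _ hs0)
      have h2 : top l < 2 * y l := by
        simp only [top, y]
        rw [← mul_div_assoc, div_lt_div_iff₀ (by positivity) (by positivity)]
        nlinarith
      have h3 := hcardD l
      have h4 := hy0 l
      nlinarith
    · intro l
      obtain ⟨l'', h1, h2⟩ := hhead l
      have h3 : ((Finset.univ.filter fun l' => top l' = top l).card : ℝ) ≤ s := by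
        have h4 : (Finset.univ.filter fun l' => top l' = top l).card ≤ (Finset.range s).card := by
          refine Finset.card_le_card_of_injOn (fun l' => (l' : ℕ) % s) ?_ ?_
          · intro l' _
            exact Finset.mem_coe.2 (Finset.mem_range.2 (Nat.mod_lt _ hs0))
          · intro l1 hl1 l2 hl2 h
            have e1 := htopeq l l1 (Finset.mem_filter.1 (Finset.mem_coe.1 hl1)).2
            have e2 := htopeq l l2 (Finset.mem_filter.1 (Finset.mem_coe.1 hl2)).2
            have e3 := Nat.div_add_mod (l1 : ℕ) s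
            have e4 := Nat.div_add_mod (l2 : ℕ) s
            simp only at h
            rw [e1] at e3
            rw [e2] at e4
            refine Fin.ext ?_
            omega
        rw [Finset.card_range] at h4
        exact_mod_cast h4
      have h5 := hDsum l'' (Finset.univ.filter fun i => top (gr i) ≤ top l) (fun k =>
        Finset.mem_filter.2 ⟨Finset.mem_univ _, by rw [hgr, h2]⟩)
      rw [h1] at h5
      refine le_trans ?_ h5
      refine mul_le_mul_of_nonneg_right ?_ (sq_nonneg _)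
      rw [hDR]
      linarith
  obtain ⟨c, hc⟩ : ∃ c : ℝ, c = √(∑ j, y (gr j) ^ 2) := ⟨_, rfl⟩
  have hc2 : ∑ j, y (gr j) ^ 2 = c ^ 2 := by
    rw [hc, Real.sq_sqrt (Finset.sum_nonneg fun i _ => sq_nonneg _)]
  have hc0 : 0 ≤ c := by rw [hc]; exact Real.sqrt_nonneg _
  have hyz : y ⟨0, hR0⟩ = M := by simp only [y, pow_zero, div_one]
  have htz : top ⟨0, hR0⟩ = M := by simp only [top, Nat.zero_div, pow_zero, div_one]
  have h6 : 6 * M ≤ c := by
    have h1 := hDsum ⟨0, hR0⟩ Finset.univ (fun k => Finset.mem_univ _)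
    rw [hc2, hyz, hDR] at h1
    have h2 : (6 * M) ^ 2 ≤ c ^ 2 := by nlinarith [sq_nonneg M]
    exact le_of_sq_le_sq h2 hc0
  have hnf := nf_lev hL hc2 ⟨M, fun l => by
    simp only [top]
    exact div_le_self hM0.le (one_le_pow₀ (by norm_num)), ⟨⟨0, hR0⟩, htz⟩, Or.inr (Or.inr h6)⟩
  -- the bound of `c`
  have hcS : c ≤ (1 + ε) * √S := by
    have h1 : ∑ j, y (gr j) ^ 2 = ∑ j, y (gr' j) ^ 2 :=
      e.symm.sum_comp (fun j => y (gr' j) ^ 2)
    rw [Fintype.sum_sum_type] at h1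
    simp only [gr', Sum.elim_inl, Sum.elim_inr] at h1
    have h2 : ∑ i, y ⟨t i, htR i⟩ ^ 2 ≤ a ^ 2 * S := by
      rw [hS, Finset.mul_sum]
      refine Finset.sum_le_sum fun i _ => ?_
      rw [← mul_pow]
      exact pow_le_pow_left₀ (hy0 _).le (ht2 i) 2
    have h3 : ∑ q : Fin D × Fin R, y q.2 ^ 2 ≤ (D : ℝ) * (M ^ 2 * (2 * s)) := by
      rw [Fintype.sum_prod_type]
      simp only [Finset.sum_const, nsmul_eq_mul, Finset.card_univ, Fintype.card_fin]
      refine mul_le_mul_of_nonneg_left ?_ (Nat.cast_nonneg _)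
      have h4 := mul_le_mul_of_nonneg_left (geomsum_le ha1 has2 R) (sq_nonneg M)
      refine le_trans (le_of_eq ?_) h4
      rw [Finset.mul_sum]
      refine Finset.sum_congr rfl fun l _ => ?_
      simp only [y]
      rw [← mul_pow]
      congr 1
      ring
    have h5 : (D : ℝ) * (M ^ 2 * (2 * s)) ≤ ε * S := by
      have h6 : ε ^ 2 * ((D : ℝ) * (2 * s)) ≤ 288 := by
        rw [hDR]
        have h7 : 0 ≤ (s : ℝ) * ε := by positivity
        have h8 : ε ^ 2 * ((4 * (s : ℝ) + 36) * (2 * s)) =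
          8 * ((s * ε) * (s * ε + 9 * ε)) := by ring
        rw [h8]
        nlinarith
      have h9 : ε ^ 2 * ((D : ℝ) * (M ^ 2 * (2 * s))) ≤ ε ^ 2 * (ε * S) := by
        have h10 := mul_le_mul_of_nonneg_right h6 (sq_nonneg M)
        nlinarith
      exact le_of_mul_le_mul_left h9 (by positivity)
    have h11 : c ^ 2 ≤ ((1 + ε) * √S) ^ 2 := by
      rw [mul_pow, Real.sq_sqrt hS0, ← hc2, h1]
      have h12 : a ^ 2 ≤ (1 + ε / 2) ^ 2 := pow_le_pow_left₀ ha0.le haε 2
      have h13 : a ^ 2 * S ≤ (1 + ε / 2) ^ 2 * S := mul_le_mul_of_nonneg_right h12 hS0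
      nlinarith [mul_nonneg (sq_nonneg ε) hS0]
    exact le_of_sq_le_sq h11 (by positivity)
  intro w d hd
  obtain ⟨z, hz⟩ := hnf (fun j => Sum.elim w (fun _ => 0) (e.symm j)) d (by
    have h1 : ∑ j, y (gr j) * ((Sum.elim w (fun _ => 0) (e.symm j) : ℕ) : ℝ) =
        ∑ j, y (gr' j) * ((Sum.elim w (fun _ => 0) j : ℕ) : ℝ) :=
      e.symm.sum_comp (fun j => y (gr' j) * ((Sum.elim w (fun _ => 0) j : ℕ) : ℝ))
    rw [h1, Fintype.sum_sum_type]
    simp only [gr', Sum.elim_inl, Sum.elim_inr, Nat.cast_zero, mul_zero, Finset.sum_const_zero,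
      add_zero]
    have h2 : ∑ i, x i * (w i : ℝ) ≤ ∑ i, y ⟨t i, htR i⟩ * (w i : ℝ) :=
      Finset.sum_le_sum fun i _ => mul_le_mul_of_nonneg_right (ht1 i) (Nat.cast_nonneg _)
    have h3 : c * (d : ℝ) ≤ (1 + ε) * √S * d := mul_le_mul_of_nonneg_right hcS (Nat.cast_nonneg _)
    linarith)
  refine ⟨fun i => z (e (Sum.inl i)), fun f hf hfd => hz f (fun j => ?_) hfd⟩
  obtain ⟨q, rfl⟩ := e.surjective j
  rcases q with i | q
  · simpa using hf i
  · simp

end Pool.Agent.U390.AN
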